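import Mathlib

set_option maxHeartbeats 400000

namespace Pool.Agent.H.MP_48d723_al

/-- the prime field -/
abbrev F2 := ZMod 2

theorem f2_add_self (x : F2) : x + x = 0 := CharTwo.add_self_eq_zero x

variable {R : Type} [CommRing R] {M : Type} [AddCommGroup M] [Module R M]

/-- derivation action on functions of lists -/
def D (r : R) : (List M → F2) → List M → F2
  | _, [] => 0
  | φ, m :: l => φ (r • m :: l) + D r (fun l' => φ (m :: l')) l

theorem D_cons (r : R) (φ : List M → F2) (m : M) (l : List M) :
    D r φ (m :: l) = φ (r • m :: l) + D r (fun l' => φ (m :: l')) l := rfl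

theorem D_nil (r : R) (φ : List M → F2) : D r φ [] = 0 := rfl

theorem D_inter (r : R) {X : Type} (Λ : (X → F2) →ₗ[F2] F2)
    (l : List M) : ∀ ψ : List M → X → F2,
      D r (fun l' => Λ (ψ l')) l = Λ (fun p => D r (fun l' => ψ l' p) l) := by
  induction l with
  | nil => intro ψ; exact (map_zero Λ).symm
  | cons m l ih =>
    intro ψ
    rw [D_cons, ih (fun l' => ψ (m :: l')), ← map_add]
    rfl

theorem D_add (r : R) (l : List M) : ∀ φ ψ : List M → F2,
    D r (fun l => φ l + ψ l) l = D r φ l + D r ψ l := by
  induction l with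
  | nil => intro φ ψ; simp [D_nil]
  | cons m l ih => intro φ ψ; simp only [D_cons, ih]; ring

theorem D_smul (r : R) (s : F2) (l : List M) : ∀ φ : List M → F2,
    D r (fun l => s * φ l) l = s * D r φ l := by
  induction l with
  | nil => intro φ; simp [D_nil]
  | cons m l ih => intro φ; simp only [D_cons, ih]; ring

/-- `D` as a linear map -/
def Dl (r : R) : Module.End F2 (List M → F2) where
  toFun := D r
  map_add' φ ψ := funext fun l => D_add r l φ ψ
  map_smul' s φ := funext fun l => D_smul r s l φ

theorem Dl_apply (r : R) (φ : List M → F2) : Dl r φ = D r φ := rfl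

theorem D_congr (r : R) (l : List M) : ∀ φ ψ : List M → F2,
    (∀ l', l'.length = l.length → φ l' = ψ l') → D r φ l = D r ψ l := by
  induction l with
  | nil => intro φ ψ _; rfl
  | cons m l ih =>
    intro φ ψ h
    rw [D_cons, D_cons, h _ (by simp), ih _ (fun l' => ψ (m :: l'))]
    intro l' hl'
    exact h _ (by simp [hl'])

theorem D_zero (r : R) (l : List M) : D r (fun _ => 0) l = 0 := by
  have := D_smul r 0 l (fun _ => 0)
  simpa using this

theorem D_comm (r s : R) (l : List M) : ∀ φ : List M → F2, D r (D s φ) l = D s (D r φ) l := by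
  induction l with
  | nil => intro φ; rfl
  | cons m l ih =>
    intro φ
    simp only [D_cons, D_add, ih (fun l' => φ (m :: l')), smul_smul, mul_comm r s]
    ring

theorem D_sq (r : R) (l : List M) : ∀ φ : List M → F2, D r (D r φ) l = D (r * r) φ l := by
  induction l with
  | nil => intro φ; rfl
  | cons m l ih =>
    intro φ
    simp only [D_cons, D_add, ih (fun l' => φ (m :: l')), smul_smul]
    rw [add_assoc, ← add_assoc (D r _ l), f2_add_self, zero_add]

theorem D_one (l : List M) : ∀ φ : List M → F2, D (1 : R) φ l = l.length * φ l := by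
  induction l with
  | nil => intro φ; simp [D_nil]
  | cons m l ih => intro φ; rw [D_cons, ih, one_smul]; simp; ring

theorem D_append (r : R) (p l : List M) : ∀ φ : List M → F2,
    D r φ (p ++ l) = D r (fun p' => φ (p' ++ l)) p + D r (fun l' => φ (p ++ l')) l := by
  induction p with
  | nil => intro φ; simp [D_nil]
  | cons m p ih => intro φ; simp only [List.cons_append, D_cons, ih]; ring

/-- multiadditive functions -/
def ML (φ : List M → F2) : Prop :=
  ∀ (p l : List M) (a b : M), φ (p ++ (a + b) :: l) = φ (p ++ a :: l) + φ (p ++ b :: l)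

omit [Module R M] in
theorem ML.cons {φ : List M → F2} (h : ML φ) (m : M) : ML (fun l => φ (m :: l)) :=
  fun p l a b => h (m :: p) l a b

theorem ML.D {φ : List M → F2} (h : ML φ) (r : R) : ML (D r φ) := by
  intro p l a b
  rw [D_append, D_append, D_append, D_cons, D_cons, D_cons, smul_add, h]
  simp only [h _ _ a b, D_add]
  ring

theorem ML.D_add {φ : List M → F2} (r s : R) (l : List M) (h : ML φ) :
    MP_48d723_al.D (r + s) φ l = MP_48d723_al.D r φ l + MP_48d723_al.D s φ l := by
  induction l generalizing φ with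
  | nil => simp [D_nil]
  | cons m l ih =>
    have := h [] l (r • m) (s • m)
    simp only [List.nil_append] at this
    rw [D_cons, D_cons, D_cons, ih (h.cons m), add_smul, this]
    ring

theorem ML.D_zero {φ : List M → F2} (l : List M) (h : ML φ) : MP_48d723_al.D (0 : R) φ l = 0 := by
  have := h.D_add (0 : R) 0 l
  rw [add_zero, f2_add_self] at this
  exact this

/-- iterated action -/
def DD : List R → Module.End F2 (List M → F2)
  | [] => 1
  | r :: u => DD u * Dl r

theorem DD_cons (r : R) (u : List R) (φ : List M → F2) : DD (r :: u) φ = DD u (D r φ) := rfl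

theorem DD_comm (r : R) (u : List R) (φ : List M → F2) : DD u (D r φ) = D r (DD u φ) := by
  induction u generalizing φ with
  | nil => rfl
  | cons s u ih =>
    rw [DD_cons, DD_cons, ← ih]
    congr 1
    exact funext fun l => D_comm s r l φ

theorem ML.DD {φ : List M → F2} (h : ML φ) (u : List R) : ML (DD u φ) := by
  induction u generalizing φ with
  | nil => exact h
  | cons s u ih => exact ih (h.D s)

theorem DD_congr (u : List R) (l : List M) : ∀ φ ψ : List M → F2,
    (∀ l', l'.length = l.length → φ l' = ψ l') → DD u φ l = DD u ψ l := by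
  induction u with
  | nil => intro φ ψ h; exact h l rfl
  | cons r u ih =>
    intro φ ψ h
    rw [DD_cons, DD_cons]
    apply ih
    intro l' hl'
    exact D_congr r l' _ _ fun l'' hl'' => h _ (hl''.trans hl')

theorem D_DD_mem {φ : List M → F2} (h : ML φ) {r : R} (hr : r * r = 0) {u : List R} (hu : r ∈ u) :
    D r (DD u φ) = 0 := by
  induction u generalizing φ with
  | nil => simp at hu
  | cons s u ih =>
    rw [DD_cons]
    rcases List.mem_cons.1 hu with rfl | hu
    · rw [← DD_comm]
      have : D r (D r φ) = 0 := funext fun l => by rw [D_sq, hr, h.D_zero]; rfl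
      rw [this, map_zero]
    · exact ih (h.D s) hu

/-- the functional attached to a fourth power -/
def Lam (u : List R) (w : M) : (List M → F2) →ₗ[F2] F2 :=
  LinearMap.proj [w, w, w, w] ∘ₗ DD u

theorem Lam_apply (u : List R) (w : M) (φ : List M → F2) : Lam u w φ = DD u φ [w, w, w, w] := rfl

theorem Lam_cons (r : R) (u : List R) (w : M) (φ : List M → F2) :
    Lam (r :: u) w φ = Lam u w (D r φ) := rfl

theorem Lam_congr (u : List R) (w : M) (φ ψ : List M → F2)
    (h : ∀ l, l.length = 4 → φ l = ψ l) : Lam u w φ = Lam u w ψ :=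
  DD_congr u _ _ _ h

variable (ε : R →+* F2) (lam : R →+ F2) [Algebra F2 R]

/-- the augmentation free part -/
def zeta (r : R) : R := r + algebraMap F2 R (ε r)

theorem lam_alg (s : F2) (r : R) : lam (r * algebraMap F2 R s) = lam r * s := by
  fin_cases s
  · change lam (r * algebraMap F2 R 0) = lam r * 0
    simp
  · change lam (r * algebraMap F2 R 1) = lam r * 1
    simp

theorem DD_four (π : M →ₗ[R] R) (w : M) (u : List R) : ∀ (ψ : List M → F2) (q : R),
    (∀ a b b' c, ψ [a, b, b', c] = ψ [a, b', b, c]) →
    (∀ a c, ψ [a, w, w, c] = lam (π a * q) * ε (π c)) →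
      ∀ a c, DD u ψ [a, w, w, c] = lam (π a * (q * (u.map (zeta ε)).prod)) * ε (π c) := by
  induction u with
  | nil => intro ψ q _ h a c; simpa using! h a c
  | cons r u ih =>
    intro ψ q hs h a c
    rw [DD_cons, ih (D r ψ) (q * zeta ε r), List.map_cons, List.prod_cons, mul_assoc q]
    · intro a b b' c
      simp only [D_cons, D_nil]
      rw [hs (r • a), hs a (r • b), hs a b (r • b'), hs a b b']
      ring
    · intro a c
      simp only [D_cons, D_nil]
      rw [hs a (r • w), ← add_assoc (ψ [a, w, r • w, c]), f2_add_self, h, h, zeta, map_smul,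
        map_smul, smul_eq_mul, smul_eq_mul, map_mul ε, mul_add, mul_add, map_add, ← mul_assoc _ q,
        ← mul_assoc _ q, lam_alg]
      rw [show r * π a * q = π a * q * r by ring]
      ring

/-- the recursive pairing -/
def val : List R → R → R → F2
  | [], a, b => lam a * lam b
  | z :: ω, a, b => val ω (a * zeta ε z) b + val ω a (b * zeta ε z)

theorem val_zero_left (ω : List R) : ∀ b, val ε lam ω 0 b = 0 := by
  induction ω with
  | nil => intro b; simp [val]
  | cons z ω ih => intro b; simp [val, ih]

theorem val_zero_right (ω : List R) : ∀ a, val ε lam ω a 0 = 0 := by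
  induction ω with
  | nil => intro b; simp [val]
  | cons z ω ih => intro b; simp [val, ih]

theorem val_short {Z : Set R} {N : ℕ}
    (hZ : ∀ u : List R, (∀ r ∈ u, r ∈ Z) → u.length < N → lam (u.map (zeta ε)).prod = 0)
    (ω : List R) : (∀ r ∈ ω, r ∈ Z) → ∀ u u' : List R, (∀ r ∈ u, r ∈ Z) → (∀ r ∈ u', r ∈ Z) →
      u.length + u'.length + ω.length < 2 * N →
        val ε lam ω (u.map (zeta ε)).prod (u'.map (zeta ε)).prod = 0 := by
  induction ω with
  | nil =>
    intro _ u u' hu hu' hl
    rw [val]
    by_cases h : u.length < N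
    · rw [hZ u hu h, zero_mul]
    · rw [hZ u' hu' (by simp at hl; omega), mul_zero]
  | cons z ω ih =>
    intro hω u u' hu hu' hl
    have hz := hω z List.mem_cons_self
    have hω' : ∀ r ∈ ω, r ∈ Z := fun r hr => hω r (List.mem_cons_of_mem _ hr)
    have h1 := ih hω' (z :: u) u' (by simpa using ⟨hz, hu⟩) hu' (by simp at hl ⊢; omega)
    have h2 := ih hω' u (z :: u') hu (by simpa using ⟨hz, hu'⟩) (by simp at hl ⊢; omega)
    rw [List.map_cons, List.prod_cons, mul_comm] at h1 h2
    rw [val, h1, h2, add_zero]

theorem val_top (a : R) (ω : List R) : (∀ z ∈ ω, a * zeta ε z = 0) → ∀ b,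
    val ε lam ω a b = lam a * lam (b * (ω.map (zeta ε)).prod) := by
  induction ω with
  | nil => intro _ b; simp [val]
  | cons z ω ih =>
    intro h b
    rw [val, h z List.mem_cons_self, val_zero_left, zero_add,
      ih (fun r hr => h r (List.mem_cons_of_mem _ hr)), List.map_cons, List.prod_cons, mul_assoc]

theorem Lam_val (θ₁ θ₂ Θ : List M → F2) (w v : M) (s t : F2)
    (hΘ : ∀ p' p : List M, p'.length = 4 → p.length = 4 → Θ (p' ++ p) = θ₁ p' * θ₂ p)
    (h₁ : ∀ u : List R, Lam u v θ₁ = s * lam (u.map (zeta ε)).prod)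
    (h₂ : ∀ u : List R, Lam u w θ₂ = t * lam (u.map (zeta ε)).prod) (ω : List R) :
    ∀ u u' : List R, Lam u w (fun p => Lam u' v (fun p' => DD ω Θ (p' ++ p))) =
      s * t * val ε lam ω (u'.map (zeta ε)).prod (u.map (zeta ε)).prod := by
  induction ω with
  | nil =>
    intro u u'
    rw [Lam_congr u w _ ((s * lam (u'.map (zeta ε)).prod) • θ₂), map_smul, h₂, val, smul_eq_mul]
    · ring
    · intro p hp
      rw [Lam_congr u' v _ (θ₂ p • θ₁), map_smul, h₁, Pi.smul_apply, smul_eq_mul, smul_eq_mul,
        mul_comm]
      intro p' hp'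
      rw [Pi.smul_apply, smul_eq_mul, mul_comm]
      exact hΘ p' p hp' hp
  | cons z ω ih =>
    intro u u'
    have e : (fun p => Lam u' v (fun p' => DD (z :: ω) Θ (p' ++ p))) =
        (fun p => Lam (z :: u') v (fun p' => DD ω Θ (p' ++ p))) +
          D z (fun p => Lam u' v (fun p' => DD ω Θ (p' ++ p))) := by
      funext p
      rw [Pi.add_apply, D_inter, Lam_cons, ← map_add]
      congr 1
      funext p'
      rw [DD_cons, DD_comm, D_append]
      rfl
    rw [e, map_add, ← Lam_cons, ih, ih, val, List.map_cons, List.map_cons, List.prod_cons,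
      List.prod_cons, mul_comm (zeta ε z), mul_comm (zeta ε z), mul_add]

end Pool.Agent.H.MP_48d723_al
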