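import Pool.Agent.H.MP_48d723_al.Ops

set_option maxHeartbeats 400000

namespace Pool.Agent.H.MP_48d723_al

attribute [local instance 100] LieRing.ofAssociativeRing

variable {R : Type} [CommRing R] [Algebra F2 R] (d : Dat R)

namespace Dat

/-- the degree filtration -/
def J (k : ℕ) : Submodule F2 d.E :=
  Submodule.span F2 {x | ∃ p : List (R × R), k ≤ p.length ∧ x = (p.map d.io).prod}

theorem J_mono {i j : ℕ} (h : i ≤ j) : d.J j ≤ d.J i :=
  Submodule.span_mono fun _ ⟨p, hp, hx⟩ => ⟨p, h.trans hp, hx⟩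

theorem J_mul {i j : ℕ} {x y : d.E} (hx : x ∈ d.J i) (hy : y ∈ d.J j) : x * y ∈ d.J (i + j) := by
  induction hx using Submodule.span_induction with
  | mem x hx =>
    obtain ⟨p, hp, rfl⟩ := hx
    induction hy using Submodule.span_induction with
    | mem y hy =>
      obtain ⟨q, hq, rfl⟩ := hy
      exact Submodule.subset_span ⟨p ++ q, by simp; omega, by simp⟩
    | zero => simp
    | add _ _ _ _ h1 h2 => rw [mul_add]; exact Submodule.add_mem _ h1 h2
    | smul _ _ _ h1 => rw [mul_smul_comm]; exact Submodule.smul_mem _ _ h1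
  | zero => simp
  | add _ _ _ _ h1 h2 => rw [add_mul]; exact Submodule.add_mem _ h1 h2
  | smul _ _ _ h1 => rw [smul_mul_assoc]; exact Submodule.smul_mem _ _ h1

theorem io_mem (m : R × R) : d.io m ∈ d.J 1 := Submodule.subset_span ⟨[m], le_rfl, by simp⟩

theorem J_nine {x : d.E} (hx : x ∈ d.J 9) : x = 0 := by
  have : d.J 9 ≤ ⊥ := Submodule.span_le.2 (by
    rintro _ ⟨p, hp, rfl⟩
    simpa using d.prod_nine p hp)
  simpa using this hx

theorem J_de (r : d.Zt) {k : ℕ} {x : d.E} (hx : x ∈ d.J k) : d.de r * x - x * d.de r ∈ d.J k := by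
  induction hx using Submodule.span_induction with
  | mem x hx =>
    obtain ⟨p, hp, rfl⟩ := hx
    refine d.J_mono hp ?_
    clear hp
    induction p with
    | nil => simp
    | cons m p ih =>
      have hP : (p.map d.io).prod ∈ d.J p.length := Submodule.subset_span ⟨p, le_rfl, rfl⟩
      rw [List.map_cons, List.prod_cons, List.length_cons, add_comm]
      have e : d.de r * (d.io m * (p.map d.io).prod) - d.io m * (p.map d.io).prod * d.de r =
          d.io (r.1 • m) * (p.map d.io).prod +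
            d.io m * (d.de r * (p.map d.io).prod - (p.map d.io).prod * d.de r) := by
        rw [← d.de_io]; noncomm_ring
      rw [e]
      exact Submodule.add_mem _ (d.J_mul (d.io_mem _) hP) (d.J_mul (d.io_mem _) ih)
  | zero => simp
  | add x y _ _ h1 h2 =>
    convert Submodule.add_mem _ h1 h2 using 1
    noncomm_ring
  | smul c x _ h1 =>
    convert Submodule.smul_mem _ c h1 using 1
    simp [smul_sub]

theorem J_one {x : d.E} (hx : x ∈ d.J 1) : ∃ w, x - d.io w ∈ d.J 2 := by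
  induction hx using Submodule.span_induction with
  | mem x hx =>
    obtain ⟨p, hp, rfl⟩ := hx
    by_cases h : 2 ≤ p.length
    · exact ⟨0, by rw [io_zero, sub_zero]; exact Submodule.subset_span ⟨p, h, rfl⟩⟩
    · obtain ⟨m, rfl⟩ := List.length_eq_one_iff.1 (show p.length = 1 by omega)
      exact ⟨m, by simp⟩
  | zero => exact ⟨0, by simp [io_zero]⟩
  | add x y _ _ h1 h2 =>
    obtain ⟨w, hw⟩ := h1
    obtain ⟨v, hv⟩ := h2
    refine ⟨w + v, ?_⟩
    convert Submodule.add_mem _ hw hv using 1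
    rw [io_add]; abel
  | smul c x _ h1 =>
    rcases f2_cases c with rfl | rfl
    · exact ⟨0, by simp [io_zero]⟩
    · simpa using h1

theorem J_pow {x : d.E} (hx : x ∈ d.J 1) (n : ℕ) : x ^ n ∈ d.J n := by
  induction n with
  | zero => exact Submodule.subset_span ⟨[], le_rfl, by simp⟩
  | succ n ih => rw [pow_succ]; exact d.J_mul ih hx

theorem J_pow_sub {x a : d.E} (hx : x ∈ d.J 1) (ha : a ∈ d.J 1) (h : x - a ∈ d.J 2) (n : ℕ) :
    x ^ n - a ^ n ∈ d.J (n + 1) := by
  induction n with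
  | zero => simp
  | succ n ih =>
    have e : x ^ (n + 1) - a ^ (n + 1) = x ^ n * (x - a) + (x ^ n - a ^ n) * a := by
      rw [pow_succ, pow_succ]; noncomm_ring
    rw [e]
    exact Submodule.add_mem _ (d.J_mul (i := n) (j := 2) (d.J_pow hx n) h) (d.J_mul ih ha)

theorem lie_mem_J {k : ℕ} (r : d.Zt) {e x : d.E} (he : e - d.de r ∈ d.J 1) (hx : x ∈ d.J k) :
    ⁅e, x⁆ - (d.de r * x - x * d.de r) ∈ d.J (k + 1) := by
  have e1 : ⁅e, x⁆ - (d.de r * x - x * d.de r) = (e - d.de r) * x - x * (e - d.de r) := by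
    rw [LieRing.of_associative_ring_bracket]; noncomm_ring
  rw [e1]
  exact Submodule.sub_mem _ (add_comm 1 k ▸ d.J_mul he hx) (d.J_mul hx he)

theorem lie_J1 {r r' : d.Zt} {e e' : d.E} (he : e - d.de r ∈ d.J 1) (he' : e' - d.de r' ∈ d.J 1) :
    ⁅e, e'⁆ ∈ d.J 1 := by
  have e1 : ⁅e, e'⁆ = (d.de r * (e' - d.de r') - (e' - d.de r') * d.de r) -
      (d.de r' * (e - d.de r) - (e - d.de r) * d.de r') +
        ((e - d.de r) * (e' - d.de r') - (e' - d.de r') * (e - d.de r)) +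
          (d.de r * d.de r' - d.de r' * d.de r) := by
    rw [LieRing.of_associative_ring_bracket]; noncomm_ring
  rw [e1, d.de_comm r r', sub_self, add_zero]
  have h1 := d.J_mul he he'
  have h2 := d.J_mul he' he
  exact Submodule.add_mem _ (Submodule.sub_mem _ (d.J_de r he') (d.J_de r' he))
    (d.J_mono (Nat.le_add_right 1 1) (Submodule.sub_mem _ h1 h2))

/-- the Lie algebras -/
def LS (s : Set d.Zt) : LieSubalgebra F2 d.E where
  carrier := {e | ∃ r ∈ Submodule.span F2 s, e - d.de r ∈ d.J 1}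
  add_mem' := by
    rintro a b ⟨r, h1, h2⟩ ⟨r', h3, h4⟩
    refine ⟨r + r', Submodule.add_mem _ h1 h3, ?_⟩
    convert Submodule.add_mem _ h2 h4 using 1
    rw [map_add]; abel
  zero_mem' := ⟨0, Submodule.zero_mem _, by simp⟩
  smul_mem' := by
    rintro c a ⟨r, h1, h2⟩
    refine ⟨c • r, Submodule.smul_mem _ _ h1, ?_⟩
    rw [map_smul, ← smul_sub]
    exact Submodule.smul_mem _ _ h2
  lie_mem' := by
    rintro a b ⟨r, -, h2⟩ ⟨r', -, h4⟩
    exact ⟨0, Submodule.zero_mem _, by simpa using d.lie_J1 h2 h4⟩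

/-- span of the iterated commutators -/
def TT (s : Set d.Zt) : Submodule F2 d.E :=
  Submodule.span F2 {x | ∃ (w : R × R) (u : List d.Zt), (∀ r ∈ u, r ∈ s) ∧ x = d.tt w u}

theorem tt_mem (w : R × R) (u : List d.Zt) : d.tt w u ∈ d.J 4 := by
  induction u with
  | nil => exact d.J_pow (d.io_mem w) 4
  | cons r u ih => exact d.J_de r ih

theorem TT_le (s : Set d.Zt) : d.TT s ≤ d.J 4 :=
  Submodule.span_le.2 (by rintro _ ⟨w, u, -, rfl⟩; exact d.tt_mem w u)

theorem TT_de {s : Set d.Zt} {r : d.Zt} (hr : r ∈ Submodule.span F2 s) {x : d.E}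
    (hx : x ∈ d.TT s) : d.de r * x - x * d.de r ∈ d.TT s := by
  induction hr using Submodule.span_induction with
  | mem r hr =>
    induction hx using Submodule.span_induction with
    | mem x hx =>
      obtain ⟨w, u, hu, rfl⟩ := hx
      exact Submodule.subset_span ⟨w, r :: u, by simpa using ⟨hr, by simpa using hu⟩, rfl⟩
    | zero => simp
    | add x y _ _ h1 h2 =>
      convert Submodule.add_mem _ h1 h2 using 1
      noncomm_ring
    | smul c x _ h1 =>
      convert Submodule.smul_mem _ c h1 using 1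
      simp [smul_sub]
  | zero => simp
  | add a b _ _ h1 h2 =>
    convert Submodule.add_mem _ h1 h2 using 1
    rw [map_add]; noncomm_ring
  | smul c a _ h1 =>
    convert Submodule.smul_mem _ c h1 using 1
    simp [smul_sub]

theorem TT_mul (s : Finset d.Zt) (hs : 2 * s.card < d.ω.length) {x y : d.E}
    (hx : x ∈ d.TT s) (hy : y ∈ d.TT s) : x * y = 0 := by
  induction hx using Submodule.span_induction with
  | mem x hx =>
    obtain ⟨w, u, hu, rfl⟩ := hx
    induction hy using Submodule.span_induction with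
    | mem y hy =>
      obtain ⟨v, u', hu', rfl⟩ := hy
      exact d.tt_mul_zero s hs w v u u' hu hu'
    | zero => simp
    | add _ _ _ _ h1 h2 => rw [mul_add, h1, h2, add_zero]
    | smul _ _ _ h1 => rw [mul_smul_comm, h1, smul_zero]
  | zero => simp
  | add _ _ _ _ h1 h2 => rw [add_mul, h1, h2, add_zero]
  | smul _ _ _ h1 => rw [smul_mul_assoc, h1, smul_zero]

theorem II_mul (s : Finset d.Zt) (hs : 2 * s.card < d.ω.length) {x y : d.E}
    (hx : x ∈ d.TT s ⊔ d.J 5) (hy : y ∈ d.TT s ⊔ d.J 5) : x * y = 0 := by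
  obtain ⟨a, ha, b, hb, rfl⟩ := Submodule.mem_sup.1 hx
  obtain ⟨a', ha', b', hb', rfl⟩ := Submodule.mem_sup.1 hy
  have h1 : a * b' = 0 := d.J_nine (d.J_mul (i := 4) (j := 5) (d.TT_le _ ha) hb')
  have h2 : b * a' = 0 := d.J_nine (d.J_mul (i := 5) (j := 4) hb (d.TT_le _ ha'))
  have h3 : b * b' = 0 :=
    d.J_nine (d.J_mono (by norm_num) (d.J_mul (i := 5) (j := 5) hb hb'))
  rw [add_mul, mul_add, mul_add, d.TT_mul s hs ha ha', h1, h2, h3]
  simp

theorem II_lie {s : Set d.Zt} {e x : d.E} (he : e ∈ d.LS s) (hx : x ∈ d.TT s ⊔ d.J 5) :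
    ⁅e, x⁆ ∈ d.TT s ⊔ d.J 5 := by
  obtain ⟨r, hr, he⟩ := he
  obtain ⟨a, ha, b, hb, rfl⟩ := Submodule.mem_sup.1 hx
  rw [lie_add]
  refine Submodule.add_mem _ ?_ (Submodule.mem_sup_right ?_)
  · rw [← sub_add_cancel ⁅e, a⁆ (d.de r * a - a * d.de r)]
    exact Submodule.add_mem _ (Submodule.mem_sup_right (d.lie_mem_J r he (d.TT_le _ ha)))
      (Submodule.mem_sup_left (d.TT_de hr ha))
  · rw [← sub_add_cancel ⁅e, b⁆ (d.de r * b - b * d.de r)]
    exact Submodule.add_mem _ (d.J_mono (by norm_num) (d.lie_mem_J r he hb)) (d.J_de r hb)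

theorem ad_sq (x a : d.E) : ⁅x, ⁅x, a⁆⁆ = ⁅x ^ 2, a⁆ := by
  have e : ⁅x, ⁅x, a⁆⁆ = ⁅x ^ 2, a⁆ + ((a * x * x - x * a * x) + (a * x * x - x * a * x)) := by
    simp only [LieRing.of_associative_ring_bracket]; noncomm_ring
  rw [e, d.E_add_self, add_zero]

theorem ad_four (x a : d.E) : ⁅x, ⁅x, ⁅x, ⁅x, a⁆⁆⁆⁆ = ⁅a, x ^ 4⁆ := by
  rw [ad_sq, ad_sq, ad_sq, ← pow_mul, ← lie_skew, d.E_neg]

theorem g_mem {s : Set d.Zt} {a x : d.E} (ha : a ∈ d.LS s) (hx : x ∈ d.J 1) :
    ⁅x, ⁅x, ⁅x, ⁅x, a⁆⁆⁆⁆ ∈ d.TT s ⊔ d.J 5 := by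
  rw [ad_four]
  apply d.II_lie ha
  obtain ⟨w, hw⟩ := d.J_one hx
  rw [← sub_add_cancel (x ^ 4) (d.io w ^ 4)]
  exact Submodule.add_mem _ (Submodule.mem_sup_right (d.J_pow_sub hx (d.io_mem w) hw 4))
    (Submodule.mem_sup_left (Submodule.subset_span ⟨w, [], by simp, rfl⟩))

end Dat

open FreeLieAlgebra

/-- the abelian identity -/
noncomputable def idA : FreeLieAlgebra F2 ℕ := ⁅of F2 0, of F2 1⁆

/-- the Engel type identity -/
noncomputable def idB : FreeLieAlgebra F2 ℕ :=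
  ⁅⁅of F2 1, of F2 2⁆, ⁅⁅of F2 1, of F2 2⁆, ⁅⁅of F2 1, of F2 2⁆, ⁅⁅of F2 1, of F2 2⁆, of F2 0⁆⁆⁆⁆

/-- membership in the product variety -/
def InP (L : Type) [LieRing L] [LieAlgebra F2 L] : Prop :=
  ∃ I : LieIdeal F2 L,
    (∀ a ∈ ({idA} : Finset (FreeLieAlgebra F2 ℕ)), ∀ φ : ℕ → I, lift F2 φ a = 0) ∧
    (∀ b ∈ ({idB} : Finset (FreeLieAlgebra F2 ℕ)), ∀ φ : ℕ → L ⧸ I, lift F2 φ b = 0)

theorem mk_lie {L : Type} [LieRing L] [LieAlgebra F2 L] (I : LieIdeal F2 L) (x y : L) :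
    ⁅LieSubmodule.Quotient.mk' I x, LieSubmodule.Quotient.mk' I y⁆ =
      LieSubmodule.Quotient.mk' I ⁅x, y⁆ := rfl

theorem idB_of_mem {L : Type} [LieRing L] [LieAlgebra F2 L] (I : LieIdeal F2 L)
    (h : ∀ a x y : L, ⁅⁅x, y⁆, ⁅⁅x, y⁆, ⁅⁅x, y⁆, ⁅⁅x, y⁆, a⁆⁆⁆⁆ ∈ I) (φ : ℕ → L ⧸ I) :
    lift F2 φ idB = 0 := by
  rw [idB]
  simp only [LieHom.map_lie, lift_of_apply]
  obtain ⟨a, ha⟩ := LieSubmodule.Quotient.surjective_mk' I (φ 0)
  obtain ⟨x, hx⟩ := LieSubmodule.Quotient.surjective_mk' I (φ 1)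
  obtain ⟨y, hy⟩ := LieSubmodule.Quotient.surjective_mk' I (φ 2)
  rw [← ha, ← hx, ← hy]
  simp only [mk_lie]
  rw [LieSubmodule.Quotient.mk_eq_zero]
  exact h a x y

theorem inP_small (s : Finset d.Zt) (hs : 2 * s.card < d.ω.length) : InP (d.LS s) := by
  let I : LieIdeal F2 (d.LS s) :=
    { (d.TT s ⊔ d.J 5).comap (d.LS s).toSubmodule.subtype with
      lie_mem := fun {x m} hm => d.II_lie x.2 hm }
  have hI : ∀ x : d.LS s, x ∈ I ↔ x.1 ∈ d.TT s ⊔ d.J 5 := fun x => Iff.rfl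
  refine ⟨I, ?_, ?_⟩
  · intro a ha φ
    rw [Finset.mem_singleton.1 ha, idA, LieHom.map_lie, lift_of_apply, lift_of_apply]
    apply Subtype.ext
    apply Subtype.ext
    change (φ 0).1.1 * (φ 1).1.1 - (φ 1).1.1 * (φ 0).1.1 = 0
    rw [d.II_mul s hs ((hI _).1 (φ 0).2) ((hI _).1 (φ 1).2),
      d.II_mul s hs ((hI _).1 (φ 1).2) ((hI _).1 (φ 0).2), sub_zero]
  · intro b hb φ
    rw [Finset.mem_singleton.1 hb]
    refine idB_of_mem I (fun a x y => ?_) φ
    rw [hI]
    obtain ⟨r, -, hr⟩ := x.2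
    obtain ⟨r', -, hr'⟩ := y.2
    simp only [LieSubalgebra.coe_bracket]
    exact d.g_mem a.2 (d.lie_J1 hr hr')

theorem not_inP (h : 2 ≤ d.ω.length) : ¬ InP (d.LS Set.univ) := by
  rintro ⟨I, hA, hB⟩
  have hde : ∀ r, d.de r ∈ d.LS Set.univ := fun r => ⟨r, Submodule.subset_span trivial, by simp⟩
  have hJ : ∀ x ∈ d.J 1, x ∈ d.LS Set.univ := fun x hx => ⟨0, Submodule.zero_mem _, by simpa⟩
  have htt : ∀ w u, d.tt w u ∈ d.LS Set.univ := fun w u =>
    hJ _ (d.J_mono (by norm_num) (d.tt_mem w u))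
  have key : ∀ w u, u ≠ [] → (⟨d.tt w u, htt w u⟩ : d.LS Set.univ) ∈ I := by
    intro w u hu
    induction u with
    | nil => exact absurd rfl hu
    | cons r u ih =>
      by_cases h0 : u = []
      · subst h0
        let a : d.LS Set.univ := ⟨d.de r, hde r⟩
        let x : d.LS Set.univ := ⟨d.de ⟨1, Submodule.subset_span (Or.inl rfl)⟩, hde _⟩
        let y : d.LS Set.univ := ⟨d.io w, hJ _ (d.io_mem w)⟩
        have hxy : ⁅x, y⁆ = y := by
          apply Subtype.ext
          have := d.de_io ⟨1, Submodule.subset_span (Or.inl rfl)⟩ w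
          rw [one_smul] at this
          exact this
        have h1 := hB idB (Finset.mem_singleton_self _)
          (fun i => LieSubmodule.Quotient.mk' I (if i = 0 then a else if i = 1 then x else y))
        rw [idB] at h1
        simp only [LieHom.map_lie, lift_of_apply] at h1
        simp only [mk_lie, if_true, one_ne_zero, if_false, OfNat.ofNat_ne_zero,
          OfNat.ofNat_ne_one] at h1
        rw [LieSubmodule.Quotient.mk_eq_zero, hxy] at h1
        convert h1 using 1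
        apply Subtype.ext
        exact (d.ad_four (d.io w) (d.de r)).symm
      · exact I.lie_mem (x := (⟨d.de r, hde r⟩ : d.LS Set.univ)) (ih h0)
  obtain ⟨u, u', w, v, hu, hu', hne⟩ := d.tt_ne h
  apply hne
  have h1 := hA idA (Finset.mem_singleton_self _)
    (fun i => if i = 0 then ⟨_, key w u hu⟩ else ⟨_, key v u' hu'⟩)
  rw [idA, LieHom.map_lie, lift_of_apply, lift_of_apply] at h1
  exact congrArg (fun x : I => x.1.1) h1

/-- kill the variables of large index -/
noncomputable def rho (k : ℕ) : FreeLieAlgebra F2 ℕ →ₗ⁅F2⁆ FreeLieAlgebra F2 ℕ :=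
  lift F2 fun i => if i < k then of F2 i else 0

theorem rho_ev (f : FreeLieAlgebra F2 ℕ) : ∃ k0, ∀ k, k0 ≤ k → rho k f = f := by
  let S : LieSubalgebra F2 (FreeLieAlgebra F2 ℕ) :=
    { carrier := {f | ∃ k0, ∀ k, k0 ≤ k → rho k f = f}
      add_mem' := by
        rintro f g ⟨a, ha⟩ ⟨b, hb⟩
        exact ⟨a + b, fun k hk => by rw [map_add, ha k (by omega), hb k (by omega)]⟩
      zero_mem' := ⟨0, fun k _ => map_zero _⟩
      smul_mem' := by
        rintro c f ⟨a, ha⟩
        exact ⟨a, fun k hk => by rw [map_smul, ha k hk]⟩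
      lie_mem' := by
        rintro f g ⟨a, ha⟩ ⟨b, hb⟩
        exact ⟨a + b, fun k hk => by rw [LieHom.map_lie, ha k (by omega), hb k (by omega)]⟩ }
  have hof : ∀ i, of F2 i ∈ S := fun i => ⟨i + 1, fun k hk => by
    rw [rho, lift_of_apply, if_pos (by omega)]⟩
  have h : S.incl.comp (lift F2 fun i => (⟨of F2 i, hof i⟩ : S)) = LieHom.id := by
    apply hom_ext
    intro i
    simp
  have h2 : f = ((lift F2 fun i => (⟨of F2 i, hof i⟩ : S)) f).1 := (LieHom.congr_fun h f).symm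
  rw [h2]
  exact ((lift F2 fun i => (⟨of F2 i, hof i⟩ : S)) f).2

theorem main (C : Finset (FreeLieAlgebra F2 ℕ)) :
    ∃ (L : Type) (_ : LieRing L) (_ : LieAlgebra F2 L),
      ¬ (InP L ↔ (∀ c ∈ C, ∀ φ : ℕ → L, lift F2 φ c = 0)) := by
  classical
  by_contra hcon
  push Not at hcon
  choose k0 hk0 using rho_ev
  let k := C.sup k0
  obtain ⟨d, hd⟩ := exists_dat (2 * k + 2)
  apply not_inP d (by omega)
  rw [hcon]
  intro c hc φ
  choose r _ hr using fun i => (φ i).2
  let s : Finset d.Zt := (Finset.range k).image r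
  have hs : s.card ≤ k := Finset.card_image_le.trans (by simp)
  have hle : d.LS s ≤ d.LS Set.univ := by
    rintro e ⟨r, -, he⟩
    exact ⟨r, Submodule.subset_span trivial, he⟩
  let φ' : ℕ → d.LS s := fun i => if h : i < k then ⟨(φ i).1, r i, Submodule.subset_span
    (Finset.mem_coe.2 (Finset.mem_image_of_mem r (Finset.mem_range.2 h))), hr i⟩ else 0
  have h1 := (hcon _ _ _).1 (inP_small d s (by omega)) c hc φ'
  have h2 : (lift F2 φ).comp (rho k) = (LieSubalgebra.inclusion hle).comp (lift F2 φ') := by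
    apply hom_ext
    intro i
    rw [LieHom.comp_apply, LieHom.comp_apply, rho, lift_of_apply, lift_of_apply]
    by_cases h : i < k
    · rw [if_pos h, lift_of_apply]
      simp only [φ', dif_pos h]
      rfl
    · rw [if_neg h]
      simp only [φ', dif_neg h, map_zero]
  rw [← hk0 c k (Finset.le_sup hc), ← LieHom.comp_apply, h2, LieHom.comp_apply, h1, map_zero]

end Pool.Agent.H.MP_48d723_al
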