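import Pool.Agent.H.MP_48d723_al.Ring

set_option maxHeartbeats 400000

namespace Pool.Agent.H.MP_48d723_al

variable {R : Type} [CommRing R] [Algebra F2 R] (d : Dat R)

namespace Dat

/-- the four-linear form -/
def th (π : R × R →ₗ[R] R) : List (R × R) → F2
  | [a, b, b', c] => d.κ (π a) (π b) (π b') * d.ε (π c)
  | _ => 0

theorem κ₃ (a b c c' : R) : d.κ a b (c + c') = d.κ a b c + d.κ a b c' := by
  rw [d.κs, d.κ₂, d.κs a c, d.κs a c']

theorem th_ML (π : R × R →ₗ[R] R) : ML (d.th π) := by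
  intro p l x y
  rcases p with _ | ⟨a, _ | ⟨b, _ | ⟨c, _ | ⟨e, p⟩⟩⟩⟩ <;>
    rcases l with _ | ⟨a', _ | ⟨b', _ | ⟨c', _ | ⟨e', l⟩⟩⟩⟩ <;>
    simp [th, d.κ₁, d.κ₂, d.κ₃, add_mul, mul_add]

theorem th_len (π : R × R →ₗ[R] R) (l : List (R × R)) (h : l.length ≠ 4) : d.th π l = 0 := by
  rcases l with _ | ⟨a', _ | ⟨b', _ | ⟨c', _ | ⟨e', _ | ⟨f', l⟩⟩⟩⟩⟩ <;> simp [th] at h ⊢

theorem Lam_th (π : R × R →ₗ[R] R) (w : R × R) (u : List R) :
    Lam u w (d.th π) = d.ε (π w) * d.lam (u.map (zeta d.ε)).prod := by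
  rw [Lam_apply, DD_four d.ε d.lam π w u (d.th π) (π w) (fun a b b' c => by simp [th, d.κs _ (π b)])
    (fun a c => by simp [th, d.κd]), ← mul_assoc, d.sq, mul_comm (algebraMap _ _ _), lam_alg]
  have : ∀ c : F2, c * c = c := by decide
  rw [mul_assoc, this, mul_comm]

/-- the product form -/
def Th (l : List (R × R)) : F2 :=
  d.th (LinearMap.fst R R R) (l.take 4) * d.th (LinearMap.snd R R R) (l.drop 4)

theorem Th_ML : ML d.Th := by
  intro p l x y
  by_cases h : p.length < 4
  · have h1 : ∀ z, (p ++ z :: l).take 4 = p ++ z :: l.take (3 - p.length) := by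
      intro z
      rw [List.take_append, List.take_of_length_le h.le,
        show 4 - p.length = (3 - p.length) + 1 by omega, List.take_succ_cons]
    have h2 : ∀ z, (p ++ z :: l).drop 4 = l.drop (3 - p.length) := by
      intro z
      rw [List.drop_append, List.drop_of_length_le h.le,
        show 4 - p.length = (3 - p.length) + 1 by omega, List.drop_succ_cons, List.nil_append]
    simp only [Th, h1, h2, d.th_ML _ _ _ x y, add_mul]
  · have h1 : ∀ z, (p ++ z :: l).take 4 = p.take 4 := by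
      intro z
      rw [List.take_append, show 4 - p.length = 0 by omega, List.take_zero, List.append_nil]
    have h2 : ∀ z, (p ++ z :: l).drop 4 = p.drop 4 ++ z :: l := by
      intro z
      rw [List.drop_append, show 4 - p.length = 0 by omega, List.drop_zero]
    simp only [Th, h1, h2, d.th_ML _ _ _ x y, mul_add]

/-- the invariant form -/
def ff : List (R × R) → F2 := DD d.ω d.Th

theorem ff_ML : ML d.ff := d.Th_ML.DD _

theorem ff_len (l : List (R × R)) (h : 8 < l.length) : d.ff l = 0 := by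
  rw [ff, DD_congr d.ω l d.Th 0, map_zero, Pi.zero_apply]
  intro l' hl'
  rw [Th, d.th_len (LinearMap.snd R R R), mul_zero, Pi.zero_apply]
  simp; omega

/-- the degree zero part -/
def Zt : Submodule F2 R := Submodule.span F2 (insert 1 {z | z ∈ d.ω})

theorem f2_cases (c : F2) : c = 0 ∨ c = 1 := by revert c; decide

theorem D_ff (r : R) (hr : r ∈ d.Zt) (l : List (R × R)) (hl : l.length = 8) : D r d.ff l = 0 := by
  induction hr using Submodule.span_induction with
  | mem z hz =>
    rcases hz with rfl | hz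
    · rw [D_one, hl]
      have : ((8 : ℕ) : F2) = 0 := by decide
      rw [this, zero_mul]
    · rw [ff, D_DD_mem d.Th_ML (by rw [d.sq, d.εω z hz, map_zero]) hz]; rfl
  | zero => exact d.ff_ML.D_zero l
  | add a b _ _ ha hb => rw [d.ff_ML.D_add, ha, hb, add_zero]
  | smul c a _ ha =>
    rcases f2_cases c with rfl | rfl
    · rw [zero_smul]; exact d.ff_ML.D_zero l
    · rw [one_smul]; exact ha

/-- the module -/
def W : Submodule F2 (List (R × R) → F2) where
  carrier := {φ | ML φ ∧ (∀ l, 8 < l.length → φ l = 0) ∧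
    ∃ s : F2, ∀ l, l.length = 8 → φ l = s * d.ff l}
  add_mem' := by
    rintro φ ψ ⟨h1, h2, s, h3⟩ ⟨h4, h5, t, h6⟩
    refine ⟨fun p l a b => ?_, fun l hl => ?_, s + t, fun l hl => ?_⟩
    · simp only [Pi.add_apply, h1 p l a b, h4 p l a b]; ring
    · simp [h2 l hl, h5 l hl]
    · simp [h3 l hl, h6 l hl, add_mul]
  zero_mem' := ⟨fun _ _ _ _ => by simp, fun _ _ => rfl, 0, fun _ _ => by simp⟩
  smul_mem' := by
    rintro c φ ⟨h1, h2, s, h3⟩
    refine ⟨fun p l a b => ?_, fun l hl => ?_, c * s, fun l hl => ?_⟩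
    · simp only [Pi.smul_apply, h1 p l a b, smul_add]
    · simp [h2 l hl]
    · simp [h3 l hl, mul_assoc]

/-- operators -/
abbrev E := Module.End F2 d.W

/-- contraction -/
def io (m : R × R) : d.E where
  toFun φ := ⟨fun l => φ.1 (m :: l), φ.2.1.cons m, fun l hl => φ.2.2.1 _ (by simp; omega), 0,
    fun l hl => by rw [zero_mul]; exact φ.2.2.1 _ (by simp; omega)⟩
  map_add' _ _ := rfl
  map_smul' _ _ := rfl

theorem io_apply (m : R × R) (φ : d.W) (l : List (R × R)) : (d.io m φ).1 l = φ.1 (m :: l) := rfl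

theorem io_add (a b : R × R) : d.io (a + b) = d.io a + d.io b := by
  ext φ l
  exact φ.2.1 [] l a b

theorem io_zero : d.io 0 = 0 := by
  have := d.io_add 0 0
  rw [add_zero] at this
  simpa using this

/-- derivations -/
def de : d.Zt →ₗ[F2] d.E where
  toFun r :=
    { toFun := fun φ => ⟨D r.1 φ.1, φ.2.1.D _, fun l hl => by
        rw [D_congr _ l _ (fun _ => 0) (fun l' hl' => φ.2.2.1 _ (by omega)), D_zero], 0,
        fun l hl => by
          obtain ⟨s, hs⟩ := φ.2.2.2
          rw [zero_mul, D_congr _ l _ (fun l => s * d.ff l) (fun l' hl' => hs _ (by omega)), D_smul,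
            d.D_ff _ r.2 l hl, mul_zero]⟩
      map_add' := fun φ ψ => Subtype.ext (funext fun l => D_add _ l _ _)
      map_smul' := fun s φ => Subtype.ext (funext fun l => D_smul _ s l _) }
  map_add' r s := by
    ext φ l
    exact φ.2.1.D_add _ _ l
  map_smul' c r := by
    rcases f2_cases c with rfl | rfl
    · ext φ l
      simp only [zero_smul, RingHom.id_apply]
      exact φ.2.1.D_zero l
    · simp

theorem de_apply (r : d.Zt) (φ : d.W) : (d.de r φ).1 = D r.1 φ.1 := rfl

theorem E_add_self (x : d.E) : x + x = 0 := by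
  rw [← two_smul F2, show (2 : F2) = 0 from rfl, zero_smul]

theorem E_neg (x : d.E) : -x = x := neg_eq_of_add_eq_zero_left (d.E_add_self x)

theorem de_io (r : d.Zt) (m : R × R) : d.de r * d.io m - d.io m * d.de r = d.io (r.1 • m) := by
  ext φ l
  change D r.1 (fun l => φ.1 (m :: l)) l - D r.1 φ.1 (m :: l) = φ.1 (r.1 • m :: l)
  rw [D_cons, CharTwo.sub_eq_add, add_left_comm, f2_add_self, add_zero]

theorem de_comm (r s : d.Zt) : d.de r * d.de s = d.de s * d.de r := by
  ext φ l
  exact D_comm _ _ l _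

theorem prod_apply (p : List (R × R)) (φ : d.W) (l : List (R × R)) :
    ((p.map d.io).prod φ).1 l = φ.1 (p.reverse ++ l) := by
  induction p generalizing l with
  | nil => rfl
  | cons m p ih => rw [List.map_cons, List.prod_cons, Module.End.mul_apply, io_apply, ih]; simp

theorem prod_nine (p : List (R × R)) (h : 9 ≤ p.length) : (p.map d.io).prod = 0 := by
  ext φ l
  rw [prod_apply]
  exact φ.2.2.1 _ (by simp; omega)

/-- iterated commutators of a fourth power -/
def tt (w : R × R) : List d.Zt → d.E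
  | [] => d.io w ^ 4
  | r :: u => d.de r * tt w u - tt w u * d.de r

theorem tt_apply (w : R × R) (u : List d.Zt) : ∀ (φ : d.W) (l : List (R × R)),
    (d.tt w u φ).1 l = Lam (u.map Subtype.val) w (fun p => φ.1 (p ++ l)) := by
  induction u with
  | nil => intro φ l; rfl
  | cons r u ih =>
    intro φ l
    change D r.1 (d.tt w u φ).1 l - (d.tt w u (d.de r φ)).1 l = _
    rw [funext (ih φ), ih, D_inter, de_apply, List.map_cons, Lam_cons, ← map_sub]
    congr 1
    funext p
    rw [Pi.sub_apply, D_append, CharTwo.sub_eq_add, add_left_comm, f2_add_self, add_zero]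

theorem tt_mul (w v : R × R) (u u' : List d.Zt) (φ : d.W) (s : F2)
    (hs : ∀ l, l.length = 8 → φ.1 l = s * d.ff l) (l : List (R × R)) :
    ((d.tt w u * d.tt v u') φ).1 l = if l = [] then s * (d.ε v.1 * d.ε w.2 *
      val d.ε d.lam d.ω ((u'.map Subtype.val).map (zeta d.ε)).prod
        ((u.map Subtype.val).map (zeta d.ε)).prod) else 0 := by
  rw [Module.End.mul_apply, tt_apply]
  simp only [tt_apply]
  split_ifs with h
  · subst h
    rw [← Lam_val d.ε d.lam (d.th (LinearMap.fst R R R)) (d.th (LinearMap.snd R R R)) d.Th w v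
      (d.ε v.1) (d.ε w.2) (fun p' p h1 _ => by rw [Th, List.take_left' h1, List.drop_left' h1])
      (d.Lam_th _ v) (d.Lam_th _ w), ← smul_eq_mul, ← map_smul]
    apply Lam_congr
    intro p hp
    rw [Pi.smul_apply, ← map_smul]
    apply Lam_congr
    intro p' hp'
    rw [List.append_nil, hs _ (by simp [hp, hp'])]
    rfl
  · rw [Lam_congr _ _ _ 0, map_zero]
    intro p hp
    rw [Lam_congr _ _ _ 0, map_zero, Pi.zero_apply]
    intro p' hp'
    have := List.length_pos_iff.2 h
    exact φ.2.2.1 _ (by simp; omega)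

theorem zeta_dup {u : List R} (h : ¬ u.Nodup) : (u.map (zeta d.ε)).prod = 0 := by
  obtain ⟨x, hx⟩ := List.exists_duplicate_iff_not_nodup.2 h
  obtain ⟨l', hl'⟩ := (List.duplicate_iff_sublist.1 hx).exists_perm_append
  rw [(hl'.map _).prod_eq]
  have : zeta d.ε x * zeta d.ε x = 0 := by
    rw [d.sq, zeta, map_add]
    have : d.ε (algebraMap F2 R (d.ε x)) = d.ε x := by
      rcases f2_cases (d.ε x) with h | h <;> simp [h]
    rw [this, f2_add_self, map_zero]
  simp [← mul_assoc, this]

theorem tt_mul_zero (s : Finset d.Zt) (hs : 2 * s.card < d.ω.length) (w v : R × R)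
    (u u' : List d.Zt) (hu : ∀ r ∈ u, r ∈ s) (hu' : ∀ r ∈ u', r ∈ s) :
    d.tt w u * d.tt v u' = 0 := by
  classical
  have key : ∀ u : List d.Zt, (∀ r ∈ u, r ∈ s) → (u.map Subtype.val).Nodup → u.length ≤ s.card := by
    intro u hu hn
    have h1 : u.toFinset ⊆ s := fun x hx => hu x (List.mem_toFinset.1 hx)
    have h2 := Finset.card_le_card h1
    rwa [List.toFinset_card_of_nodup (hn.of_map _)] at h2
  ext φ l
  obtain ⟨c, hc⟩ := φ.2.2.2
  rw [d.tt_mul w v u u' φ c hc]
  have : val d.ε d.lam d.ω ((u'.map Subtype.val).map (zeta d.ε)).prod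
        ((u.map Subtype.val).map (zeta d.ε)).prod = 0 := by
    by_cases h1 : (u'.map Subtype.val).Nodup
    · by_cases h2 : (u.map Subtype.val).Nodup
      · refine val_short d.ε d.lam d.short d.ω (fun r hr => Submodule.subset_span (Or.inr hr))
          _ _ ?_ ?_ ?_
        · intro r hr
          obtain ⟨x, -, rfl⟩ := List.mem_map.1 hr
          exact x.2
        · intro r hr
          obtain ⟨x, -, rfl⟩ := List.mem_map.1 hr
          exact x.2
        · have := key u hu h2
          have := key u' hu' h1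
          simp; omega
      · rw [d.zeta_dup h2, val_zero_right]
    · rw [d.zeta_dup h1, val_zero_left]
  rw [this]
  simp

theorem tt_ne (h : 2 ≤ d.ω.length) : ∃ (u u' : List d.Zt) (w v : R × R), u ≠ [] ∧ u' ≠ [] ∧
    d.tt w u * d.tt v u' - d.tt v u' * d.tt w u ≠ 0 := by
  obtain ⟨z, ω', hω⟩ : ∃ z ω', d.ω = z :: ω' := by
    rcases h' : d.ω with _ | ⟨z, ω'⟩
    · simp [h'] at h
    · exact ⟨z, ω', rfl⟩
  have hmem : ∀ r ∈ d.ω, r ∈ d.Zt := fun r hr => Submodule.subset_span (Or.inr hr)
  have hz : z ∈ d.ω := by rw [hω]; exact List.mem_cons_self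
  have hω' : ∀ r ∈ ω', r ∈ d.ω := fun r hr => by rw [hω]; exact List.mem_cons_of_mem _ hr
  have hze : ∀ r ∈ d.ω, zeta d.ε r = r := fun r hr => by simp [zeta, d.εω r hr]
  have hsq : ∀ r ∈ d.ω, r * r = 0 := fun r hr => by rw [d.sq, d.εω r hr, map_zero]
  refine ⟨[⟨z, hmem z hz⟩], ω'.attach.map fun r => ⟨r.1, hmem _ (hω' _ r.2)⟩, (0, 1), (1, 0),
    by simp, ?_, fun h0 => ?_⟩
  · intro h0
    have := congrArg List.length h0
    simp at this
    simp [hω, this] at h
  · let φ : d.W := ⟨d.ff, d.ff_ML, d.ff_len, 1, fun _ _ => (one_mul _).symm⟩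
    have h1 := congrArg (fun x : d.E => (x φ).1 []) h0
    simp only [LinearMap.sub_apply, Submodule.coe_sub, Pi.sub_apply] at h1
    rw [d.tt_mul _ _ _ _ φ 1 (fun _ _ => (one_mul _).symm),
      d.tt_mul _ _ _ _ φ 1 (fun _ _ => (one_mul _).symm)] at h1
    have e1 : (ω'.attach.map fun r => (⟨r.1, hmem _ (hω' _ r.2)⟩ : d.Zt)).map Subtype.val = ω' := by
      simp
    have e2 : ω'.map (zeta d.ε) = ω' := by
      conv_rhs => rw [← List.map_id ω']
      exact List.map_congr_left fun r hr => hze r (hω' r hr)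
    have e3 : ω'.prod * z = d.ω.prod := by rw [hω, List.prod_cons, mul_comm]
    have e4 : ∀ r ∈ ω', d.ω.prod * zeta d.ε r = 0 := by
      intro r hr
      obtain ⟨c, hc⟩ := List.dvd_prod (hω' r hr)
      rw [hze r (hω' r hr), hc, mul_right_comm, hsq r (hω' r hr), zero_mul]
    rw [e1, e2] at h1
    simp only [List.map_cons, List.map_nil, List.prod_cons, List.prod_nil, mul_one, hze z hz,
      map_one, map_zero, one_mul, mul_zero, zero_mul, if_true, sub_zero] at h1
    have e5 : val d.ε d.lam (z :: ω') ω'.prod z = 1 := by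
      rw [val, hze z hz, hsq z hz, val_zero_right, add_zero, e3, val_top _ _ _ _ e4, e2,
        mul_comm z, e3, d.top, mul_one]
    rw [← hω, h1] at e5
    exact zero_ne_one (α := F2) e5

end Dat

end Pool.Agent.H.MP_48d723_al
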