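import Pool.Agent.H.MP_48d723_al.Forms

set_option maxHeartbeats 400000

namespace Pool.Agent.H.MP_48d723_al

/-- the data of a truncated polynomial ring -/
structure Dat (R : Type) [CommRing R] [Algebra F2 R] where
  ε : R →+* F2
  lam : R →+ F2
  κ : R → R → R → F2
  ω : List R
  sq : ∀ w, w * w = algebraMap F2 R (ε w)
  κ₁ : ∀ a a' b c, κ (a + a') b c = κ a b c + κ a' b c
  κ₂ : ∀ a b b' c, κ a (b + b') c = κ a b c + κ a b' c
  κs : ∀ a b c, κ a b c = κ a c b
  κd : ∀ a b, κ a b b = lam (a * b)
  εω : ∀ z ∈ ω, ε z = 0
  short : ∀ u : List R, (∀ r ∈ u, r ∈ (Submodule.span F2 (insert 1 {z | z ∈ ω}) : Set R)) →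
    u.length < ω.length → lam (u.map (zeta ε)).prod = 0
  top : lam ω.prod = 1

open AddMonoidAlgebra

/-- the group algebra -/
abbrev RN (N : ℕ) := AddMonoidAlgebra F2 (Fin N → F2)

/-- weight filtration -/
def Fil (N k : ℕ) : Submodule F2 (RN N) where
  carrier := {r | ∀ g, r.coeff g ≠ 0 → hammingNorm g ≤ k}
  add_mem' := by
    intro a b ha hb g hg
    by_cases h : a.coeff g = 0
    · exact hb g (by simpa [h] using hg)
    · exact ha g h
  zero_mem' := by intro g hg; simp at hg
  smul_mem' := by
    intro c a ha g hg
    exact ha g (fun h => hg (by simp [h]))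

theorem ham_add {N : ℕ} (a b : Fin N → F2) : hammingNorm (a + b) ≤ hammingNorm a + hammingNorm b := by
  have h := hammingDist_triangle (a + b) b 0
  rw [hammingDist_zero_right, hammingDist_zero_right, hammingDist_eq_hammingNorm] at h
  have e : hammingNorm (-a) = hammingNorm a := by simp [hammingNorm]
  simpa [e] using h

theorem Fil_mul {N i j : ℕ} {a b : RN N} (ha : a ∈ Fil N i) (hb : b ∈ Fil N j) :
    a * b ∈ Fil N (i + j) := by
  intro g hg
  have := support_coeff_mul_subset a b (Finsupp.mem_support_iff.2 hg)
  obtain ⟨x, hx, y, hy, rfl⟩ := Finset.mem_add.1 this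
  exact (ham_add x y).trans (add_le_add (ha x (Finsupp.mem_support_iff.1 hx))
    (hb y (Finsupp.mem_support_iff.1 hy)))

theorem single_mem {N k : ℕ} (g : Fin N → F2) (c : F2) (h : hammingNorm g ≤ k) :
    single g c ∈ Fil N k := by
  intro g' hg'
  rw [coeff_single, Finsupp.single_apply] at hg'
  split_ifs at hg' with h'
  · rw [← h']; exact h
  · exact absurd rfl hg'

theorem Fil_prod {N : ℕ} (u : List (RN N)) (h : ∀ r ∈ u, r ∈ Fil N 1) :
    u.prod ∈ Fil N u.length := by
  induction u with
  | nil => exact single_mem 0 1 (by simp)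
  | cons r u ih =>
    rw [List.prod_cons, List.length_cons, add_comm]
    exact Fil_mul (h r List.mem_cons_self) (ih fun s hs => h s (List.mem_cons_of_mem _ hs))

theorem exists_dat (N : ℕ) : ∃ d : Dat (RN N), d.ω.length = N := by
  let ε : RN N →+* F2 := (AddMonoidAlgebra.lift F2 F2 (Fin N → F2) 1).toRingHom
  have hε : ∀ g c, ε (single g c) = c := by intro g c; simp [ε]
  let lam : RN N →+ F2 := (Finsupp.applyAddHom (1 : Fin N → F2)).comp coeffAddEquiv.toAddMonoidHom
  have hlam : ∀ r, lam r = r.coeff 1 := fun r => rfl
  have hf2 : ∀ c : F2, c * c = c := by decide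
  refine ⟨⟨ε, lam, fun a b c => ∑ g, lam (a * single g 1) * (b.coeff g * c.coeff g),
    List.ofFn fun i => single (Pi.single i 1) 1 + 1, ?_, ?_, ?_, ?_, ?_, ?_, ?_, ?_⟩, by simp⟩
  · intro w
    induction w using AddMonoidAlgebra.induction_linear with
    | zero => simp
    | add a b ha hb =>
      have : CharP (RN N) 2 := charP_of_injective_algebraMap (algebraMap F2 (RN N)).injective 2
      rw [CharTwo.add_mul_self, ha, hb, map_add, map_add]
    | single g c =>
      rw [single_mul_single, hε, hf2, show g + g = 0 from funext fun i => f2_add_self _]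
      simp
  · intro a a' b c
    simp only [add_mul, map_add, Finset.sum_add_distrib]
  · intro a b b' c
    simp only [coeff_add, Finsupp.add_apply, add_mul, mul_add, Finset.sum_add_distrib]
  · intro a b c
    simp only [mul_comm]
  · intro a b
    have hb : b = ∑ g, b.coeff g • single g 1 := by
      ext g
      simp [Finsupp.single_apply]
    conv_rhs => rw [hb]
    rw [Finset.mul_sum, map_sum]
    refine Finset.sum_congr rfl fun g _ => ?_
    rw [hf2, Algebra.smul_def, mul_comm (algebraMap _ _ _), ← mul_assoc, lam_alg]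
  · intro z hz
    obtain ⟨i, rfl⟩ := List.mem_ofFn.1 hz
    rw [map_add, hε, map_one]; rfl
  · intro u hu hlen
    have h1 : (1 : RN N) ∈ Fil N 1 := single_mem 0 1 (by simp)
    have h2 := Fil_prod (u.map (zeta ε)) (by
      intro r hr
      obtain ⟨s, hs, rfl⟩ := List.mem_map.1 hr
      refine Submodule.add_mem _ ?_ ?_
      · refine Submodule.span_le.2 ?_ (hu s hs)
        rintro z (rfl | hz)
        · exact h1
        · obtain ⟨i, rfl⟩ := List.mem_ofFn.1 hz
          refine Submodule.add_mem _ (single_mem _ _ ?_) h1
          rw [hammingNorm]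
          refine (Finset.card_le_card (t := {i}) ?_).trans (by simp)
          intro j hj
          simp only [Finset.mem_filter, Finset.mem_univ, true_and] at hj
          by_contra hne
          exact hj (Pi.single_eq_of_ne (by simpa using hne) _)
      · rw [Algebra.algebraMap_eq_smul_one]; exact Submodule.smul_mem _ _ h1)
    by_contra hne
    have h3 := h2 1 hne
    have h4 : hammingNorm (1 : Fin N → F2) = N := by simp [hammingNorm]
    simp at h3 hlen
    omega
  · rw [List.prod_ofFn, Finset.prod_add_one, map_sum, Finset.sum_eq_single Finset.univ]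
    · rw [prod_single]
      have : (∑ i : Fin N, Pi.single i (1 : F2) : Fin N → F2) = 1 := Finset.univ_sum_single 1
      rw [this, hlam, coeff_single]
      simp
    · intro S _ hS
      obtain ⟨j, hj⟩ : ∃ j, j ∉ S := by
        by_contra h
        push Not at h
        exact hS (Finset.eq_univ_of_forall h)
      rw [prod_single, hlam, coeff_single, Finsupp.single_apply, if_neg]
      intro h
      have := congrFun h j
      rw [Finset.sum_apply, Finset.sum_eq_zero] at this
      · simp at this
      · intro i hi
        exact Pi.single_eq_of_ne (fun e : j = i => hj (e ▸ hi)) _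
    · simp

end Pool.Agent.H.MP_48d723_al
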